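import Pool.Agent.helper38.OB.Spec

/-!
# Row `ob:BAS` (MP_d7d65f_nt): the supporting set
-/

set_option autoImplicit false

namespace Pool.Agent.OB

open Finset

theorem BAS_C0 (h : ℕ) (hh : 3 ≤ h) : 2 ≤ C0 h := by
  unfold C0
  nlinarith

theorem BAS_Bs (h : ℕ) (hh : 3 ≤ h) : ∃ b : ℕ, 1 ≤ b ∧ Bs h = C0 h * b := by
  refine ⟨C0 h ^ (6 * h - 1), Nat.one_le_pow _ _ (by have := BAS_C0 h hh; omega), ?_⟩
  unfold Bs be
  rw [← pow_mul, ← pow_succ']
  congr 1
  omega

theorem BAS_dep (h : ℕ) (hh : 3 ≤ h) (l : ℕ) :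
    dep h l ≤ l ∧ lo h l ≤ lo h (l + 1) ∧ C0 h ^ dep h l ≤ l + 1 ∧ l + 1 < C0 h ^ (dep h l + 1) := by
  have hC := BAS_C0 h hh
  have h1 : C0 h ^ dep h l ≤ l + 1 := Nat.pow_log_le_self _ (by omega)
  have h2 : l + 1 < C0 h ^ (dep h l + 1) := Nat.lt_pow_succ_log_self (by omega) _
  have h3 : dep h l < C0 h ^ dep h l := Nat.lt_pow_self (by omega)
  have h4 : dep h (l + 1) ≤ dep h l + 1 := by
    have h5 : dep h (l + 1) < dep h l + 2 := by
      unfold dep at *
      apply Nat.log_lt_of_lt_pow (by omega)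
      have h6 : C0 h ^ (Nat.log (C0 h) (l + 1) + 2) = C0 h ^ (Nat.log (C0 h) (l + 1) + 1) * C0 h := by
        rw [← pow_succ]
      rw [h6]
      nlinarith
    omega
  refine ⟨by omega, ?_, h1, h2⟩
  unfold lo
  omega

theorem BAS (hDIG : DIG_stmt) : BAS_stmt := by
  intro h hh l
  obtain ⟨b, hb, hB⟩ := BAS_Bs h hh
  have hC := BAS_C0 h hh
  obtain ⟨hd1, hd2, hd3, hd4⟩ := BAS_dep h hh l
  have hBpos : 0 < Bs h := by rw [hB]; positivity
  -- the quantities
  obtain ⟨q, hq⟩ : ∃ q, Bs h = 4 * h * (4 * h * q) := ⟨b, by rw [hB]; unfold C0; ring⟩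
  have hqpos : 1 ≤ q := by
    rcases Nat.eq_zero_or_pos q with h0 | h0
    · rw [h0] at hq; simp at hq; omega
    · exact h0
  have hh0 : 0 < 4 * h := by omega
  have hP : 0 < Bs h ^ l := pow_pos hBpos l
  have e1 : Bs h ^ (l + 1) = 4 * h * (Bs h ^ l * (4 * h * q)) := by
    rw [pow_succ]; nth_rewrite 2 [hq]; ring
  have e2 : Bs h ^ (l + 1) / (4 * h) = Bs h ^ l * (4 * h * q) := by
    rw [e1, Nat.mul_div_cancel_left _ hh0]
  have e3 : Bs h ^ (l + 1) / C0 h = Bs h ^ l * q := by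
    have : Bs h ^ (l + 1) = C0 h * (Bs h ^ l * q) := by rw [e1]; unfold C0; ring
    rw [this, Nat.mul_div_cancel_left _ (by omega)]
  have e4 : Bs h ^ (l + 1) = 16 * h ^ 2 * (Bs h ^ l * q) := by rw [e1]; ring
  have hPq : 0 < Bs h ^ l * q := Nat.mul_pos hP hqpos
  -- size facts
  have hsz : ∀ x : ℕ, x < Bs h ^ (l + 1) / (4 * h) + Bs h ^ (l + 1) / C0 h → 2 * h * x < Bs h ^ (l + 1) := by
    intro x hx
    rw [e2, e3] at hx
    rw [e4]
    have h1 : x < (4 * h + 1) * (Bs h ^ l * q) := by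
      calc x < _ := hx
        _ = _ := by ring
    have h2 : 2 * h * x ≤ 2 * h * ((4 * h + 1) * (Bs h ^ l * q)) := Nat.mul_le_mul_left _ h1.le
    have h3 : 2 * h * ((4 * h + 1) * (Bs h ^ l * q)) < 16 * h ^ 2 * (Bs h ^ l * q) := by
      have : 2 * h * (4 * h + 1) < 16 * h ^ 2 := by nlinarith
      calc 2 * h * ((4 * h + 1) * (Bs h ^ l * q)) = (2 * h * (4 * h + 1)) * (Bs h ^ l * q) := by ring
        _ < _ := Nat.mul_lt_mul_of_pos_right this hPq
    omega
  have hlt : ∀ x : ℕ, x < Bs h ^ (l + 1) / (4 * h) + Bs h ^ (l + 1) / C0 h → x < Bs h ^ (l + 1) := by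
    intro x hx
    have h1 := hsz x hx
    have h2 : x ≤ 2 * h * x := Nat.le_mul_of_pos_left _ (by omega)
    omega
  refine ⟨?_, ?_, hd1, hd2, hd3, hd4⟩
  · intro x hx
    unfold S at hx
    rw [mem_filter, mem_range] at hx
    obtain ⟨hx1, hx2, hx3, -⟩ := hx
    have h1 : Bs h ^ l ≤ x := by
      rw [e2] at hx2
      have : Bs h ^ l * 1 ≤ Bs h ^ l * (4 * h * q) := Nat.mul_le_mul_left _ (Nat.mul_pos hh0 hqpos)
      omega
    refine ⟨?_, h1, hsz x hx3⟩
    unfold lev
    exact Nat.log_eq_of_pow_le_of_lt_pow h1 hx1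
  · have hD := hDIG b (C0 h) (l + 1) (lo h l) hb (by omega)
    rw [← hB] at hD
    have hn : l + 1 - lo h l = dep h l + 1 := by unfold lo; omega
    rw [hn] at hD
    rw [← hD]
    congr 1
    symm
    -- bijection
    have himg : S h l = ((Finset.range (Bs h ^ (l + 1))).filter fun y =>
        ∀ j, lo h l ≤ j → j < l + 1 → y % Bs h ^ (j + 1) < Bs h ^ (j + 1) / C0 h).image
          (fun z => Bs h ^ (l + 1) / (4 * h) + z) := by
      have hdiv : ∀ j, j < l → ∀ z, (Bs h ^ (l + 1) / (4 * h) + z) % Bs h ^ (j + 1) = z % Bs h ^ (j + 1) := by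
        intro j hj z
        have hd : Bs h ^ (j + 1) ∣ Bs h ^ (l + 1) / (4 * h) := by
          rw [e2]
          exact Dvd.dvd.mul_right (pow_dvd_pow _ (by omega)) _
        obtain ⟨k, hk⟩ := hd
        rw [hk, Nat.mul_add_mod]
      ext x
      unfold S
      rw [mem_filter, mem_range, mem_image]
      constructor
      · rintro ⟨hx1, hx2, hx3, hx4⟩
        refine ⟨x - Bs h ^ (l + 1) / (4 * h), ?_, by omega⟩
        have hz : Bs h ^ (l + 1) / (4 * h) + (x - Bs h ^ (l + 1) / (4 * h)) = x := by omega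
        rw [mem_filter, mem_range]
        refine ⟨by omega, ?_⟩
        intro j hj1 hj2
        by_cases hjl : j = l
        · subst hjl
          rw [Nat.mod_eq_of_lt (by omega)]
          omega
        · have hjl' : j < l := by omega
          rw [← hdiv j hjl', hz]
          exact hx4 j hj1 hjl'
      · rintro ⟨z, hz, rfl⟩
        rw [mem_filter, mem_range] at hz
        obtain ⟨hz1, hz2⟩ := hz
        have hz3 := hz2 l (by unfold lo; omega) (by omega)
        rw [Nat.mod_eq_of_lt hz1] at hz3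
        refine ⟨hlt _ (by omega), by omega, by omega, ?_⟩
        intro j hj1 hj2
        rw [hdiv j hj2]
        exact hz2 j hj1 (by omega)
    rw [himg, card_image_of_injective _ (fun a b hab => by simpa using hab)]

end Pool.Agent.OB
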